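import Pool.Agent.Helper667.RACell

namespace Pool.Agent.Results.MP_103809_gt.CellularComplexes

open H667RA

universe u v w x

/-- For every connected 2-complex `X`, given by the cellular chain complex of its universal
covering with the free action of `G = π₁ X` on the cells, below every element of `ra(X)` there is a
minimal element of `ra(X)`; in particular `ra(X)` has a minimal element as soon as it is
nonempty. -/
theorem result {G : Type u} [Group G] {C₀ : Type v} {C₁ : Type w} {C₂ : Type x}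
    [MulAction G C₀] [MulAction G C₁] [MulAction G C₂]
    (bd₂ : (C₂ →₀ ℤ) →ₗ[ℤ] (C₁ →₀ ℤ)) (bd₁ : (C₁ →₀ ℤ) →ₗ[ℤ] (C₀ →₀ ℤ))
    (hX : CellularUniversalCover G bd₂ bd₁) :
    ((ra (G := G) bd₂ bd₁).Nonempty → ∃ M, Minimal (fun P => P ∈ ra (G := G) bd₂ bd₁) M) ∧
      ∀ P₀ ∈ ra (G := G) bd₂ bd₁, ∃ M ≤ P₀, Minimal (fun P => P ∈ ra (G := G) bd₂ bd₁) M := by
  refine ⟨?_, fun P₀ h => cellular_main hX P₀ h⟩
  rintro ⟨P₀, h⟩
  obtain ⟨M, _, hM⟩ := cellular_main hX P₀ h
  exact ⟨M, hM⟩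

end Pool.Agent.Results.MP_103809_gt.CellularComplexes
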