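import Pool.Agent.Helper667.RAPres

namespace Pool.Agent.Results.MP_103809_gt.PresentationComplexes

open H667RA

universe u v

/-- For every 2-complex `X` of a presentation (arbitrary sets of generators and relators), below
every element of `ra(X)` there is a minimal element of `ra(X)`; in particular `ra(X)` has a minimal
element as soon as it is nonempty. -/
theorem result {S : Type u} {ι : Type v} (r : ι → List (S × Bool)) :
    ((raPres r).Nonempty → ∃ M, Minimal (fun P => P ∈ raPres r) M) ∧
      ∀ P₀ ∈ raPres r, ∃ M ≤ P₀, Minimal (fun P => P ∈ raPres r) M := by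
  refine ⟨?_, fun P₀ h => pres_main r P₀ h⟩
  rintro ⟨P₀, h⟩
  obtain ⟨M, _, hM⟩ := pres_main r P₀ h
  exact ⟨M, hM⟩

end Pool.Agent.Results.MP_103809_gt.PresentationComplexes
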